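import Pool.Agent.Helper72.AI.Stmts

set_option autoImplicit false

namespace Pool.Agent.Helper98.AI

open AffInc

/-- the coordinate along `dir θ` -/
noncomputable def un (θ : ℝ) (p : ℝ × ℝ) : ℝ := Real.cos θ * p.1 + Real.sin θ * p.2

lemma un_comb (θ s t : ℝ) (p q : ℝ × ℝ) : un θ (s • p + t • q) = s * un θ p + t * un θ q := by
  simp [un]; ring

lemma nrm_comb (θ s t : ℝ) (p q : ℝ × ℝ) : nrm θ (s • p + t • q) = s * nrm θ p + t * nrm θ q := by
  simp [nrm]; ring

lemma un_dir (θ t : ℝ) (p : ℝ × ℝ) : un θ (p + t • dir θ) = un θ p + t := by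
  simp [un, dir]
  have := Real.sin_sq_add_cos_sq θ
  linear_combination t * this

lemma nrm_dir (θ t : ℝ) (p : ℝ × ℝ) : nrm θ (p + t • dir θ) = nrm θ p := by
  simp [nrm, dir]; ring

lemma dir_add_pi (θ : ℝ) : dir (θ + Real.pi) = - dir θ := by
  simp [dir]

lemma nrm_add_pi (θ : ℝ) (p : ℝ × ℝ) : nrm (θ + Real.pi) p = - nrm θ p := by
  simp [nrm]; ring

lemma recon (θ : ℝ) (p q : ℝ × ℝ) (h : nrm θ p = nrm θ q) :
    p = q + (un θ p - un θ q) • dir θ := by
  have h1 := Real.sin_sq_add_cos_sq θ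
  simp only [nrm] at h
  ext
  · simp [un, dir]
    linear_combination (-Real.sin θ) * h - (p.1 - q.1) * h1
  · simp [un, dir]
    linear_combination (Real.cos θ) * h - (p.2 - q.2) * h1

lemma dir_ne (θ : ℝ) : dir θ ≠ 0 := by
  intro h
  have h1 := Real.sin_sq_add_cos_sq θ
  have h2 : Real.cos θ = 0 := congrArg Prod.fst h
  have h3 : Real.sin θ = 0 := congrArg Prod.snd h
  rw [h2, h3] at h1
  norm_num at h1

/-- one step of the comparison of Jensen gaps -/
lemma step {G : Set (ℝ × ℝ)} (hG : Convex ℝ G) (u v : ℝ × ℝ → ℝ)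
    (hu : ∀ (s t : ℝ) (p q : ℝ × ℝ), u (s • p + t • q) = s * u p + t * u q)
    (hv : ∀ (s t : ℝ) (p q : ℝ × ℝ), v (s • p + t • q) = s * v p + t * v q)
    {ρ c : ℝ} (h0 : 0 < ρ) (h1 : ρ < 1) {B B' T p : ℝ × ℝ} (hB' : B' ∈ G) (hp : p ∈ G)
    (hright : ∀ q ∈ G, v q = v B → u q ≤ u B) (hBB : v B' ≤ v B) (hBT : v B ≤ v T)
    (hz : v p = (1 - ρ) * v B + ρ * v T) (hup : (1 - ρ) * u B + ρ * u T + c ≤ u p) :
    ∃ p' ∈ G, v p' = (1 - ρ) * v B' + ρ * v T ∧ (1 - ρ) * u B' + ρ * u T + c ≤ u p' := by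
  have hle : v B' ≤ v p := by
    rw [hz]
    nlinarith [mul_nonneg (sub_nonneg.2 h1.le) (sub_nonneg.2 hBB),
      mul_nonneg h0.le (sub_nonneg.2 (hBB.trans hBT))]
  rcases eq_or_lt_of_le hle with heq | hlt
  · -- degenerate
    have e1 : v B' = v B := by
      by_contra hne
      have hlt : v B' < v B := lt_of_le_of_ne hBB hne
      have : 0 < (1 - ρ) * (v B - v B') := mul_pos (by linarith) (by linarith)
      nlinarith [mul_nonneg h0.le (sub_nonneg.2 (hBB.trans hBT))]
    refine ⟨p, hp, by rw [hz, e1], ?_⟩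
    have := hright B' hB' e1
    nlinarith [mul_le_mul_of_nonneg_left this (sub_nonneg.2 h1.le)]
  · set D := v p - v B' with hD
    have hDpos : 0 < D := by linarith
    set r := (v B - v B') / D with hr
    have hr0 : 0 ≤ r := div_nonneg (by linarith) hDpos.le
    have hr1 : r ≤ 1 := by
      rw [hr, div_le_one hDpos, hD, hz]
      nlinarith [mul_nonneg h0.le (sub_nonneg.2 hBT)]
    have hrD : r * D = v B - v B' := by rw [hr]; field_simp
    have hq : (1 - r) • B' + r • p ∈ G := hG hB' hp (by linarith) hr0 (by ring)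
    have hqv : v ((1 - r) • B' + r • p) = v B := by
      rw [hv]
      linear_combination hrD
    have hqu := hright _ hq hqv
    rw [hu] at hqu
    have hs0 : 0 ≤ (1 - ρ) * r := mul_nonneg (by linarith) hr0
    have hs1 : (1 - ρ) * r ≤ 1 := by nlinarith
    refine ⟨((1 - ρ) * r) • B' + (1 - (1 - ρ) * r) • p, hG hB' hp hs0 (by linarith) (by ring), ?_, ?_⟩
    · rw [hv]
      have : v p = v B' + D := by rw [hD]; ring
      rw [hz]
      rw [hz] at this
      linear_combination - (1 - ρ) * hrD + (1-ρ) * r * (- this)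
    · rw [hu]
      nlinarith [mul_le_mul_of_nonneg_left hqu (sub_nonneg.2 h1.le)]


variable {G : Set (ℝ × ℝ)} {L : ℝ → ℝ} {P : ℝ × ℝ → ℝ × ℝ}

lemma pi_mem (hP : LowChord G L P) (θ a : ℝ) (ha : a ∈ Set.Icc (0:ℝ) 1) :
    P (θ + Real.pi, a) ∈ G := hP.mem _ a ha

lemma pi_mem' (hL : MaxChord G L) (hP : LowChord G L P) (θ a : ℝ) (ha : a ∈ Set.Icc (0:ℝ) 1) :
    P (θ + Real.pi, a) + (-(a * L θ)) • dir θ ∈ G := by
  have := hP.mem' (θ + Real.pi) a ha
  rw [hL.per, dir_add_pi] at this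
  simpa using this

lemma pi_low (hL : MaxChord G L) (hP : LowChord G L P) (θ a : ℝ) (ha : a ∈ Set.Icc (0:ℝ) 1)
    (X : ℝ × ℝ) (hX : X ∈ G) (hX' : X + (-(a * L θ)) • dir θ ∈ G) :
    nrm θ X ≤ nrm θ (P (θ + Real.pi, a)) ∧ (nrm θ X = nrm θ (P (θ + Real.pi, a)) →
      X = P (θ + Real.pi, a)) := by
  have := hP.low (θ + Real.pi) a ha X hX (by
    rw [hL.per, dir_add_pi]; simpa using hX')
  rw [nrm_add_pi, nrm_add_pi] at this
  refine ⟨by linarith [this.1], fun h => this.2 (by rw [h])⟩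

/-- shortening a chord -/
lemma chord_shorten (hG : Convex ℝ G) (X d : ℝ × ℝ) (s t : ℝ) (hX : X ∈ G) (hX' : X + t • d ∈ G)
    (hs : 0 ≤ s) (hst : s ≤ t) : X + s • d ∈ G := by
  rcases eq_or_lt_of_le (hs.trans hst) with h | h
  · have : s = 0 := by linarith
    subst this; simpa using hX
  · have := hG hX hX' (a := 1 - s / t) (b := s / t) (by
      rw [sub_nonneg, div_le_one h]; exact hst) (by positivity) (by ring)
    have e : (1 - s / t) • X + (s / t) • (X + t • d) = X + s • d := by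
      have : s / t * t = s := by field_simp
      rw [smul_add, smul_smul, this, sub_smul, one_smul]; abel
    rwa [e] at this

/-- the right end of the low chord is the rightmost point at its height -/
lemma right_low (hG : Convex ℝ G) (hL : MaxChord G L) (hP : LowChord G L P) (θ a : ℝ)
    (ha : a ∈ Set.Icc (0:ℝ) 1) (q : ℝ × ℝ) (hq : q ∈ G)
    (hv : nrm θ q = nrm θ (P (θ, a) + (a * L θ) • dir θ)) :
    un θ q ≤ un θ (P (θ, a) + (a * L θ) • dir θ) := by
  by_contra hcon
  push Not at hcon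
  have hLp := hL.pos θ
  have haL : 0 ≤ a * L θ := mul_nonneg ha.1 hLp.le
  set A := P (θ, a) with hA
  have hv' : nrm θ q = nrm θ A := by rw [hv, nrm_dir]
  have e := recon θ q A hv'
  rw [un_dir] at hcon
  set κ := un θ q - un θ A with hκ
  have hAm : A ∈ G := hP.mem θ a ha
  have hX : A + (κ - a * L θ) • dir θ ∈ G :=
    chord_shorten hG A (dir θ) (κ - a * L θ) κ hAm (by rw [← e]; exact hq) (by linarith) (by linarith)
  have h2 := hP.low θ a ha _ hX (by
    have : A + (κ - a * L θ) • dir θ + (a * L θ) • dir θ = q := by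
      rw [add_assoc, ← add_smul]; rw [e]; congr 2; ring
    rw [this]; exact hq)
  have h3 := h2.2 (by rw [nrm_dir])
  have h4 : (κ - a * L θ) • dir θ = 0 := by
    have : A + (κ - a * L θ) • dir θ = A + 0 := by rw [h3, add_zero]
    exact add_left_cancel this
  rcases smul_eq_zero.1 h4 with h5 | h5
  · linarith
  · exact dir_ne θ h5

/-- the right end of the top chord is the rightmost point at its height -/
lemma right_top (hG : Convex ℝ G) (hL : MaxChord G L) (hP : LowChord G L P) (θ a : ℝ)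
    (ha : a ∈ Set.Icc (0:ℝ) 1) (q : ℝ × ℝ) (hq : q ∈ G)
    (hv : nrm θ q = nrm θ (P (θ + Real.pi, a))) :
    un θ q ≤ un θ (P (θ + Real.pi, a)) := by
  by_contra hcon
  push Not at hcon
  have hLp := hL.pos θ
  have haL : 0 ≤ a * L θ := mul_nonneg ha.1 hLp.le
  set C := P (θ + Real.pi, a) with hC
  have e := recon θ q C hv
  set κ := un θ q - un θ C with hκ
  have hCm : C + (-(a * L θ)) • dir θ ∈ G := pi_mem' hL hP θ a ha
  have hX : q + (-(a * L θ)) • dir θ ∈ G := by
    have h1 : C + (-(a * L θ)) • dir θ + κ • dir θ ∈ G := by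
      apply chord_shorten hG _ (dir θ) κ (κ + a * L θ) hCm _ (by linarith) (by linarith)
      have : C + (-(a * L θ)) • dir θ + (κ + a * L θ) • dir θ = q := by
        rw [add_assoc, ← add_smul]; rw [e]; congr 2; ring
      rw [this]; exact hq
    have : C + (-(a * L θ)) • dir θ + κ • dir θ = q + (-(a * L θ)) • dir θ := by
      rw [e]; abel
    rwa [this] at h1
  have h2 := (pi_low hL hP θ a ha q hq hX).2 hv
  rw [h2] at hcon
  exact lt_irrefl _ hcon

lemma low_mono (hG : Convex ℝ G) (hL : MaxChord G L) (hP : LowChord G L P) (θ a b : ℝ)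
    (ha : 0 ≤ a) (hab : a ≤ b) (hb : b ≤ 1) : nrm θ (P (θ, a)) ≤ nrm θ (P (θ, b)) := by
  have hLp := hL.pos θ
  refine (hP.low θ a ⟨ha, hab.trans hb⟩ (P (θ, b)) (hP.mem θ b ⟨ha.trans hab, hb⟩) ?_).1
  exact chord_shorten hG _ _ _ (b * L θ) (hP.mem θ b ⟨ha.trans hab, hb⟩)
    (hP.mem' θ b ⟨ha.trans hab, hb⟩) (mul_nonneg ha hLp.le) (by gcongr)

lemma top_mono (hG : Convex ℝ G) (hL : MaxChord G L) (hP : LowChord G L P) (θ a b : ℝ)
    (ha : 0 ≤ a) (hab : a ≤ b) (hb : b ≤ 1) :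
    nrm θ (P (θ + Real.pi, b)) ≤ nrm θ (P (θ + Real.pi, a)) := by
  have := low_mono hG hL hP (θ + Real.pi) a b ha hab hb
  rw [nrm_add_pi, nrm_add_pi] at this
  linarith

lemma low_le_top (hL : MaxChord G L) (hP : LowChord G L P) (θ a : ℝ)
    (ha : a ∈ Set.Icc (0:ℝ) 1) : nrm θ (P (θ, a)) ≤ nrm θ (P (θ + Real.pi, a)) := by
  have h := (hP.low θ a ha (P (θ + Real.pi, a) + (-(a * L θ)) • dir θ) (pi_mem' hL hP θ a ha) (by
    have : P (θ + Real.pi, a) + (-(a * L θ)) • dir θ + (a * L θ) • dir θ = P (θ + Real.pi, a) := by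
      rw [add_assoc, ← add_smul]; simp
    rw [this]; exact hP.mem _ a ha)).1
  rwa [nrm_dir] at h

lemma zero_interior (hS : StrictConvex ℝ G) (hL : MaxChord G L) (hP : LowChord G L P)
    {ρ : ℝ} (h0 : 0 < ρ) (h1 : ρ < 1) (τ θ : ℝ) : pR L P ρ τ θ 0 ∈ interior G := by
  have hmem0 : (0:ℝ) ∈ Set.Icc (0:ℝ) 1 := ⟨le_rfl, zero_le_one⟩
  have e : pR L P ρ τ θ 0 = (1 - ρ) • P (θ, 0) + ρ • P (θ + Real.pi, 0) := by
    simp [pR]
  rw [e]
  have hne : P (θ, 0) ≠ P (θ + Real.pi, 0) := by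
    intro heq
    -- every point of G has the same height
    have hall : ∀ X ∈ G, nrm θ X = nrm θ (P (θ, 0)) := by
      intro X hX
      have h1 := (hP.low θ 0 hmem0 X hX (by simpa using hX)).1
      have h2 := (pi_low hL hP θ 0 hmem0 X hX (by simpa using hX)).1
      rw [← heq] at h2
      exact le_antisymm h2 h1
    have hall' : ∀ X ∈ G, X = P (θ, 0) := by
      intro X hX
      exact (hP.low θ 0 hmem0 X hX (by simpa using hX)).2 (hall X hX)
    obtain ⟨X, hX, hX'⟩ := hL.att θ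
    have e1 := hall' X hX
    have e2 := hall' _ hX'
    rw [← e1] at e2
    have h4 : L θ • dir θ = 0 := by
      have : X + L θ • dir θ = X + 0 := by rw [e2, add_zero]
      exact add_left_cancel this
    rcases smul_eq_zero.1 h4 with h5 | h5
    · exact (hL.pos θ).ne' h5
    · exact dir_ne θ h5
  exact hS (hP.mem θ 0 hmem0) (hP.mem _ 0 hmem0) hne (by linarith) h0 (by ring)

lemma one_notMem (hS : StrictConvex ℝ G) (hL : MaxChord G L) (hP : LowChord G L P)
    {τ : ℝ} (hτ : 0 < τ) (ρ θ : ℝ) : pR L P ρ τ θ 1 ∉ G := by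
  intro hmem
  have hmem1 : (1:ℝ) ∈ Set.Icc (0:ℝ) 1 := ⟨zero_le_one, le_rfl⟩
  have hLp := hL.pos θ
  set A := P (θ, 1) with hA
  set C := P (θ + Real.pi, 1) with hC
  have hA0 : A ∈ G := hP.mem θ 1 hmem1
  have hA1 : A + L θ • dir θ ∈ G := by
    have := hP.mem' θ 1 hmem1
    rwa [one_mul] at this
  have hC0 : C ∈ G := hP.mem _ 1 hmem1
  have hC1 : C + (-(L θ)) • dir θ ∈ G := by
    have := pi_mem' hL hP θ 1 hmem1
    rwa [one_mul] at this
  have key : A = C + (-(L θ)) • dir θ := by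
    by_contra hne
    have hint : (1/2 : ℝ) • A + (1/2 : ℝ) • (C + (-(L θ)) • dir θ) ∈ interior G :=
      hS hA0 hC1 hne (by norm_num) (by norm_num) (by norm_num)
    have hmid : (1/2 : ℝ) • (A + L θ • dir θ) + (1/2 : ℝ) • C ∈ G :=
      hS.convex hA1 hC0 (by norm_num) (by norm_num) (by norm_num)
    set M := (1/2 : ℝ) • A + (1/2 : ℝ) • (C + (-(L θ)) • dir θ) with hM
    have hM' : (1/2 : ℝ) • (A + L θ • dir θ) + (1/2 : ℝ) • C = M + L θ • dir θ := by
      rw [hM]
      module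
    rw [hM'] at hmid
    -- move a bit to the left
    have hopen : IsOpen (interior G) := isOpen_interior
    have hcont : Continuous (fun ε : ℝ => M + (-ε) • dir θ) := by fun_prop
    have h0 : (fun ε : ℝ => M + (-ε) • dir θ) 0 ∈ interior G := by simpa using hint
    have hnhds : (fun ε : ℝ => M + (-ε) • dir θ) ⁻¹' interior G ∈ nhds (0:ℝ) :=
      (hopen.preimage hcont).mem_nhds h0
    obtain ⟨δ, hδ, hball⟩ := Metric.mem_nhds_iff.1 hnhds
    have hd : (δ / 2) ∈ Metric.ball (0:ℝ) δ := by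
      rw [Metric.mem_ball, Real.dist_eq, sub_zero, abs_of_pos (by linarith)]; linarith
    have hX := interior_subset (hball hd)
    have hle := hL.le θ (L θ + δ / 2) (M + (-(δ / 2)) • dir θ) hX (by
      have : M + (-(δ / 2)) • dir θ + (L θ + δ / 2) • dir θ = M + L θ • dir θ := by module
      rw [this]; exact hmid)
    linarith
  have e : pR L P ρ τ θ 1 = A + ((1 + τ) * L θ) • dir θ := by
    have hC' : C = A + L θ • dir θ := by
      rw [key]; module
    simp only [pR]
    rw [← hA, ← hC, hC', one_mul]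
    module
  rw [e] at hmem
  have := hL.le θ _ A hA0 hmem
  nlinarith [mul_pos hτ hLp]

theorem pf_S_cross : AffInc.S_cross := by
  intro G L P ρ τ hS hF hL hP h0 h1 hτ
  refine ⟨fun θ => zero_interior hS hL hP h0 h1 τ θ, fun θ => one_notMem hS hL hP hτ ρ θ, ?_⟩
  intro θ a b ha hab hb hmem
  have hLp := hL.pos θ
  rcases eq_or_lt_of_le ha with ha0 | ha0
  · rw [← ha0]; exact zero_interior hS hL hP h0 h1 τ θ
  have hG := hS.convex
  have hab' := hab.le
  have haI : a ∈ Set.Icc (0:ℝ) 1 := ⟨ha, hab'.trans hb⟩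
  have hbI : b ∈ Set.Icc (0:ℝ) 1 := ⟨ha.trans hab', hb⟩
  set Ba := P (θ, a) + (a * L θ) • dir θ with hBa
  set Bb := P (θ, b) + (b * L θ) • dir θ with hBb
  set Ta := P (θ + Real.pi, a) with hTa
  set Tb := P (θ + Real.pi, b) with hTb
  have vBa : nrm θ Ba = nrm θ (P (θ, a)) := by rw [hBa, nrm_dir]
  have vBb : nrm θ Bb = nrm θ (P (θ, b)) := by rw [hBb, nrm_dir]
  have hBaG : Ba ∈ G := hP.mem' θ a haI
  have hTaG : Ta ∈ G := hP.mem _ a haI
  set c := τ * (b * L θ) with hc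
  have e : pR L P ρ τ θ b = ((1 - ρ) • Bb + ρ • Tb) + c • dir θ := by simp [pR, hBb, hTb, hc]
  have ea : pR L P ρ τ θ a = ((1 - ρ) • Ba + ρ • Ta) + (τ * (a * L θ)) • dir θ := by
    simp [pR, hBa, hTa]
  -- first step
  obtain ⟨p1, hp1, hv1, hu1⟩ := step hG (un θ) (nrm θ) (un_comb θ) (nrm_comb θ) h0 h1
    (B := Bb) (B' := Ba) (T := Tb) (p := pR L P ρ τ θ b) (c := c) hBaG hmem
    (fun q hq hv => right_low hG hL hP θ b hbI q hq hv)
    (by rw [vBa, vBb]; exact low_mono hG hL hP θ a b ha hab' hb)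
    (by rw [vBb]; exact low_le_top hL hP θ b hbI)
    (by rw [e, nrm_dir θ c, nrm_comb]) (by rw [e, un_dir θ c, un_comb])
  obtain ⟨p2, hp2, hv2, hu2⟩ := step hG (un θ) (fun p => - nrm θ p) (un_comb θ)
    (fun s t p q => by rw [nrm_comb]; ring) (ρ := 1 - ρ) (by linarith) (by linarith)
    (B := Tb) (B' := Ta) (T := Ba) (p := p1) (c := c) hTaG hp1
    (fun q hq hv => right_top hG hL hP θ b hbI q hq (by simpa using hv))
    (by
      have := top_mono hG hL hP θ a b ha hab' hb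
      simp only [hTa, hTb]; linarith)
    (by
      have h2 := low_le_top hL hP θ b hbI
      have h3 := low_mono hG hL hP θ a b ha hab' hb
      rw [vBa]; linarith)
    (by rw [hv1]; ring) (by linarith)
  set W := (1 - ρ) • Ba + ρ • Ta with hW
  have hWG : W ∈ G := hG hBaG hTaG (by linarith) h0.le (by ring)
  have hvW : nrm θ p2 = nrm θ W := by
    rw [hW, nrm_comb]
    have : nrm θ p2 = - ( - nrm θ p2) := by ring
    rw [this, hv2]; ring
  have eQ := recon θ p2 W hvW
  have hκ : c ≤ un θ p2 - un θ W := by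
    rw [hW, un_comb]; linarith
  set κ := un θ p2 - un θ W with hκd
  have hlt : τ * (a * L θ) < κ := by
    have : τ * (a * L θ) < τ * (b * L θ) := by
      apply mul_lt_mul_of_pos_left _ hτ
      exact mul_lt_mul_of_pos_right hab hLp
    linarith
  have hpos : 0 < τ * (a * L θ) := by positivity
  have hκpos : 0 < κ := by linarith
  have hne : W ≠ p2 := by
    intro h
    rw [← h] at hκd
    simp at hκd
    linarith
  have hint := hS hWG hp2 hne (a := 1 - τ * (a * L θ) / κ) (b := τ * (a * L θ) / κ)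
    (by rw [sub_pos, div_lt_one hκpos]; exact hlt) (by positivity) (by ring)
  have e3 : (1 - τ * (a * L θ) / κ) • W + (τ * (a * L θ) / κ) • p2 = pR L P ρ τ θ a := by
    have : τ * (a * L θ) / κ * κ = τ * (a * L θ) := by field_simp
    rw [ea, eQ, smul_add (τ * (a * L θ) / κ), smul_smul (τ * (a * L θ) / κ), this, sub_smul, one_smul]
    abel
  rw [e3] at hint
  exact hint

end Pool.Agent.Helper98.AI
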